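import Pool.Agent.H31.NH2

namespace Pool.Agent.Results.MP_434b1a_gt.Main

open Pool.Agent.H31.NH Cardinal

universe u

theorem result :
    (∀ (n : ℕ) (M : Type u) [TopologicalSpace M], Manifold n M → ENH M → OH M < E n M →
      1 ≤ n ∧ covB n < continuum) ∧
    (∀ n : ℕ, 1 ≤ n → covB n < continuum →
      ∃ (M : Type) (_ : TopologicalSpace M), Manifold (n + 2) M ∧ ENH M ∧ OH M < E (n + 2) M) :=
  ⟨fun _ _ _ => fwd, fun _ => bwd⟩

end Pool.Agent.Results.MP_434b1a_gt.Main
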